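import Pool.Agent.H835R5.Main
import Pool.Agent.H835R5.Asm
import Pool.Agent.H835R5.T.Cov2
import Pool.Agent.H835R5.T.Spl

/-!
MP_d82055_ag, Q1: negative answer. For `A = F₂[[t]]` (a complete discrete valuation ring, uniformiser
`t`, residue field of characteristic `2`) there is an integral smooth projective curve `X` over `A`
(relative dimension `d = 1`; it is the closure of `y² + y = x³`) such that for every `n` the kernel
of `res_n` on `CH_1(X) = H¹(X, O_X^*)` contains a class that is not divisible by `2` in `CH_1(X)`;
hence there is no decreasing filtration with (i) and (ii).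
-/

set_option autoImplicit false

open CategoryTheory AlgebraicGeometry TopologicalSpace Pool.Agent.H835R5

namespace Pool.Agent.Results.MP_d82055_ag.KerzFiltration

theorem result :
    IsDiscreteValuationRing (PowerSeries (ZMod 2)) ∧
    Irreducible (PowerSeries.X : PowerSeries (ZMod 2)) ∧
    IsAdicComplete (IsLocalRing.maximalIdeal (PowerSeries (ZMod 2))) (PowerSeries (ZMod 2)) ∧
    HenselianLocalRing (PowerSeries (ZMod 2)) ∧
    CharP (IsLocalRing.ResidueField (PowerSeries (ZMod 2))) 2 ∧
    ∃ (X : Scheme.{0}) (f : X ⟶ Spec (.of (PowerSeries (ZMod 2)))),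
      IsIntegral X ∧ SmoothOfRelativeDimension 1 f ∧ IsProjOver f ∧
      KerNotDivisible f PowerSeries.X 2 ∧ ¬ HasKerzFiltration f PowerSeries.X 2 :=
  ⟨taskA2.1, PowerSeries.X_prime.irreducible, taskA2.2.1, taskA2.2.2.1, taskA2.2.2.2,
    main taskCov2 taskSpl (AsmB.taskAsm taskMV)⟩

end Pool.Agent.Results.MP_d82055_ag.KerzFiltration
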